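import Pool.Agent.Helper42.QD.Stmts

/-! # MP_75837a_al: module FN (quadratic extensions of finite fields) -/

namespace Pool.Agent.Helper42.QD

theorem fn_coe {E : Type} [Field E] (t : E ≃+* E) (x : Eˣ) : ((tu t x : Eˣ) : E) = t (x : E) := rfl

theorem fn_tu {E : Type} [Field E] (t : E ≃+* E) (ht : ∀ x, t (t x) = x) (x : Eˣ) :
    tu t (tu t x) = x := by
  apply Units.ext
  rw [fn_coe, fn_coe, ht]

theorem fn_sq {E : Type} [Field E] [Fintype E] [DecidableEq E] (t : E ≃+* E)
    (ht : ∀ x, t (t x) = x) (w : E) (hw : t w ≠ w) :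
    Fintype.card E = (Finset.univ.filter fun x : E => t x = x).card ^ 2 := by
  have hw' : w - t w ≠ 0 := sub_ne_zero.2 (Ne.symm hw)
  have hw2 : t w - w ≠ 0 := sub_ne_zero.2 hw
  have hb : ∀ x : E, t ((x - t x) / (w - t w)) = (x - t x) / (w - t w) := by
    intro x
    rw [map_div₀, map_sub, map_sub, ht, ht, div_eq_div_iff hw2 hw']
    ring
  have ha : ∀ x : E, t (x - (x - t x) / (w - t w) * w) = x - (x - t x) / (w - t w) * w := by
    intro x
    rw [map_sub, map_mul, hb]
    field_simp
    ring
  have e : E ≃ {x : E // t x = x} × {x : E // t x = x} :=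
    { toFun := fun x => (⟨x - (x - t x) / (w - t w) * w, ha x⟩, ⟨(x - t x) / (w - t w), hb x⟩)
      invFun := fun p => (p.1 : E) + (p.2 : E) * w
      left_inv := by
        intro x
        simp only
        ring
      right_inv := by
        rintro ⟨⟨a, h1⟩, ⟨b, h2⟩⟩
        have h3 : (a + b * w - t (a + b * w)) / (w - t w) = b := by
          rw [map_add, map_mul, h1, h2]
          field_simp
          ring
        apply Prod.ext
        · apply Subtype.ext
          simp only
          rw [h3]
          ring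
        · apply Subtype.ext
          simp only
          exact h3 }
  rw [Fintype.card_congr e, Fintype.card_prod, Fintype.card_subtype, pow_two]

theorem fn_units {E : Type} [Field E] [Fintype E] [DecidableEq E] (t : E ≃+* E) :
    (Finset.univ.filter fun x : E => t x = x).card =
      (Finset.univ.filter fun x : Eˣ => tu t x = x).card + 1 := by
  have h0 : (0 : E) ∈ (Finset.univ.filter fun x : E => t x = x) := by
    simp
  rw [← Finset.card_erase_add_one h0]
  congr 1
  symm
  apply Finset.card_bij (fun (x : Eˣ) _ => (x : E))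
  · intro x hx
    rw [Finset.mem_filter] at hx
    rw [Finset.mem_erase, Finset.mem_filter]
    exact ⟨x.ne_zero, Finset.mem_univ _, congrArg Units.val hx.2⟩
  · intro x _ y _ h
    exact Units.ext h
  · intro y hy
    rw [Finset.mem_erase, Finset.mem_filter] at hy
    refine ⟨Units.mk0 y hy.1, ?_, rfl⟩
    rw [Finset.mem_filter]
    exact ⟨Finset.mem_univ _, Units.ext hy.2.2⟩

/-- `e ↦ e / t e` -/
def fn_phi {E : Type} [Field E] (t : E ≃+* E) : Eˣ →* Eˣ where
  toFun e := e * (tu t e)⁻¹
  map_one' := by simp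
  map_mul' x y := by
    rw [map_mul, mul_inv]
    exact mul_mul_mul_comm _ _ _ _

/-- `y ↦ y t y` -/
def fn_nu {E : Type} [Field E] (t : E ≃+* E) : Eˣ →* Eˣ where
  toFun y := y * tu t y
  map_one' := by simp
  map_mul' x y := by
    rw [map_mul]
    exact mul_mul_mul_comm _ _ _ _

theorem fn_h90 {E : Type} [Field E] (t : E ≃+* E) (ht : ∀ x, t (t x) = x) (w : E) (hw : t w ≠ w)
    (y : Eˣ) (hy : y * tu t y = 1) : ∃ e : Eˣ, y = e * (tu t e)⁻¹ := by
  have hy' : (y : E) * t (y : E) = 1 := by
    have := congrArg Units.val hy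
    rw [Units.val_mul, fn_coe, Units.val_one] at this
    exact this
  obtain ⟨c, hc⟩ : ∃ c : E, c + (y : E) * t c ≠ 0 := by
    by_contra hcon
    push Not at hcon
    have h1 := hcon 1
    rw [map_one, mul_one] at h1
    have h2 : (y : E) = -1 := by
      rw [add_comm] at h1
      exact eq_neg_of_add_eq_zero_left h1
    have h3 := hcon w
    rw [h2] at h3
    apply hw
    have : w - t w = 0 := by
      rw [← h3]
      ring
    exact (sub_eq_zero.1 this).symm
  refine ⟨Units.mk0 _ hc, ?_⟩
  rw [eq_mul_inv_iff_mul_eq]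
  apply Units.ext
  rw [Units.val_mul, fn_coe, Units.val_mk0, map_add, map_mul, ht]
  have : (y : E) * (t c + t (y : E) * c) = (y : E) * t c + ((y : E) * t (y : E)) * c := by ring
  rw [this, hy']
  ring

theorem st_FN : ST_FN := by
  intro E _ _ _ t ht hne
  obtain ⟨w, hw⟩ := hne
  have hE : Fintype.card E = ((Finset.univ.filter fun x : Eˣ => tu t x = x).card + 1) ^ 2 := by
    rw [fn_sq t ht w hw, fn_units]
  set a := (Finset.univ.filter fun x : Eˣ => tu t x = x).card with ha
  have ha0 : 0 < a := by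
    rw [ha, Finset.card_pos]
    exact ⟨1, by simp⟩
  have hU : Fintype.card Eˣ = a * (a + 2) := by
    rw [Fintype.card_units, hE]
    have : (a + 1) ^ 2 = a * (a + 2) + 1 := by ring
    omega
  have hUN : Nat.card Eˣ = a * (a + 2) := by
    rw [Nat.card_eq_fintype_card, hU]
  have hkphi : Nat.card (fn_phi t).ker = a := by
    rw [ha]
    apply Nat.subtype_card
    intro x
    rw [Finset.mem_filter, MonoidHom.mem_ker]
    constructor
    · intro h
      show x * (tu t x)⁻¹ = 1
      rw [h.2, mul_inv_cancel]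
    · intro h
      have h' : x * (tu t x)⁻¹ = 1 := h
      exact ⟨Finset.mem_univ _, (mul_inv_eq_one.1 h').symm⟩
  have hkn : ∀ y : Eˣ, y ∈ (fn_nu t).ker ↔ y * tu t y = 1 := by
    intro y
    rw [MonoidHom.mem_ker]
    rfl
  have hrk : (fn_phi t).range = (fn_nu t).ker := by
    ext y
    rw [hkn, MonoidHom.mem_range]
    constructor
    · rintro ⟨e, he⟩
      have he' : e * (tu t e)⁻¹ = y := he
      rw [← he', map_mul, map_inv, fn_tu t ht]
      have : e * (tu t e)⁻¹ * (tu t e * e⁻¹) = e * ((tu t e)⁻¹ * tu t e) * e⁻¹ := by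
        simp only [mul_assoc]
      rw [this, inv_mul_cancel, mul_one, mul_inv_cancel]
    · intro h
      obtain ⟨e, he⟩ := fn_h90 t ht w hw y h
      exact ⟨e, he.symm⟩
  have h1 : a * Nat.card (fn_nu t).ker = a * (a + 2) := by
    have h2 := Subgroup.card_mul_index (fn_phi t).ker
    rw [Subgroup.index_ker, hkphi, hrk, hUN] at h2
    exact h2
  have hkerc : Nat.card (fn_nu t).ker = a + 2 := Nat.eq_of_mul_eq_mul_left ha0 h1
  have hrangec : Nat.card (fn_nu t).range = a := by
    have h2 := Subgroup.card_mul_index (fn_nu t).ker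
    rw [Subgroup.index_ker, hkerc, hUN, mul_comm a] at h2
    exact Nat.eq_of_mul_eq_mul_left (by omega) h2
  have hrange : ∀ z : Eˣ, tu t z = z → z ∈ Set.range (fn_nu t) := by
    have hsub : ((fn_nu t).range : Set Eˣ) ⊆ {z | tu t z = z} := by
      rintro z ⟨y, hy⟩
      have hy' : y * tu t y = z := hy
      show tu t z = z
      rw [← hy', map_mul, fn_tu t ht, mul_comm]
    have hc1 : ((fn_nu t).range : Set Eˣ).ncard = a := by
      rw [← Nat.card_coe_set_eq]
      exact hrangec
    have hc2 : {z : Eˣ | tu t z = z}.ncard = a := by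
      rw [ha, Set.ncard_eq_toFinset_card']
      congr 1
      ext z
      simp
    have heq := Set.eq_of_subset_of_ncard_le hsub (by rw [hc1, hc2]) (Set.toFinite _)
    intro z hz
    have hz' : z ∈ {z : Eˣ | tu t z = z} := hz
    rw [← heq] at hz'
    exact hz'
  refine ⟨a, ha0, rfl, hE, hU, ?_, fun y hy => fn_h90 t ht w hw y hy⟩
  intro z hz
  have h2 := MonoidHom.card_fiber_eq_of_mem_range (fn_nu t) (hrange z hz)
    (⟨1, map_one _⟩ : (1 : Eˣ) ∈ Set.range (fn_nu t))
  have h3 : (Finset.univ.filter fun y : Eˣ => y * tu t y = z).card =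
      (Finset.univ.filter fun y : Eˣ => (fn_nu t) y = z).card := rfl
  rw [h3, h2, ← hkerc]
  symm
  apply Nat.subtype_card
  intro x
  rw [Finset.mem_filter, MonoidHom.mem_ker]
  exact ⟨fun h => h.2, fun h => ⟨Finset.mem_univ _, h⟩⟩

end Pool.Agent.Helper42.QD
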